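import Mathlib

set_option autoImplicit false

namespace Pool.Agent.Lib_helper23.OddCyc

open SimpleGraph

/-- `c` lies strictly between `a` and `b`. -/
def Btw (a b c : ℕ) : Prop := (a < c ∧ c < b) ∨ (b < c ∧ c < a)

lemma Btw.comm {a b c : ℕ} (h : Btw a b c) : Btw b a c := Or.symm h

/-- `V a b` is read as: some vertex has position `a` on the first path and position `b` on the
second one.  `Cert k V` : two vertices at distances `D₁`, `D₂` on the two paths, `D₁ + D₂ = 2k+1`,
such that no vertex is strictly between them on both paths. -/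
def Cert (k : ℕ) (V : ℕ → ℕ → Prop) : Prop :=
  ∃ a b a' b' D₁ D₂ : ℕ, V a b ∧ V a' b' ∧ 1 ≤ D₁ ∧ 1 ≤ D₂ ∧ D₁ + D₂ = 2 * k + 1 ∧
    (a' = a + D₁ ∨ a = a' + D₁) ∧ (b' = b + D₂ ∨ b = b' + D₂) ∧
    ∀ c d, V c d → Btw a a' c → ¬ Btw b b' d

lemma Cert.swap {k : ℕ} {V W : ℕ → ℕ → Prop} (h : Cert k V) (hVW : ∀ a b, V a b ↔ W b a) :
    Cert k W := by
  obtain ⟨a, b, a', b', D₁, D₂, h1, h2, h3, h4, h5, h6, h7, h8⟩ := h
  refine ⟨b, a, b', a', D₂, D₁, (hVW _ _).1 h1, (hVW _ _).1 h2, h4, h3, by omega, h7, h6, ?_⟩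
  intro c d hcd hb ha
  exact h8 d c ((hVW _ _).2 hcd) ha hb

/-- The path graph on `Fin M` in which vertex `v` has position `f v`. -/
def pg {M : ℕ} (f : Equiv.Perm (Fin M)) : SimpleGraph (Fin M) := (pathGraph M).comap f

lemma pg_adj {M : ℕ} (f : Equiv.Perm (Fin M)) (u v : Fin M) :
    (pg f).Adj u v ↔ ((f u : ℕ) + 1 = f v ∨ (f v : ℕ) + 1 = f u) := by
  unfold pg
  rw [comap_adj, pathGraph_adj]

lemma pg_iso {M : ℕ} (f : Equiv.Perm (Fin M)) : Nonempty (pathGraph M ≃g pg f) :=
  ⟨(Iso.comap f (pathGraph M)).symm⟩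

lemma walk_up {M : ℕ} (f : Equiv.Perm (Fin M)) (u v : Fin M) (n : ℕ)
    (h : (f v : ℕ) = f u + n) :
    ∃ w : (pg f).Walk u v, w.length = n ∧ w.IsPath ∧
      ∀ x ∈ w.support, (f u : ℕ) ≤ f x ∧ (f x : ℕ) ≤ f v := by
  induction n generalizing v with
  | zero =>
    have : v = u := by
      apply f.injective
      apply Fin.ext
      omega
    subst this
    refine ⟨Walk.nil, rfl, Walk.IsPath.nil, ?_⟩
    intro x hx
    simp only [Walk.support_nil, List.mem_singleton] at hx
    subst hx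
    omega
  | succ n ih =>
    have hv := (f v).2
    obtain ⟨w, hw⟩ := f.surjective ⟨(f u : ℕ) + n, by omega⟩
    have hw' : (f w : ℕ) = f u + n := by rw [hw]
    obtain ⟨p, hp1, hp2, hp3⟩ := ih w hw'
    have hadj : (pg f).Adj w v := by
      rw [pg_adj]; left; omega
    refine ⟨p.concat hadj, ?_, ?_, ?_⟩
    · rw [Walk.length_concat, hp1]
    · apply hp2.concat
      intro hmem
      have := (hp3 v hmem).2
      omega
    · intro x hx
      rw [Walk.support_concat] at hx
      simp only [List.mem_append, List.mem_singleton] at hx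
      rcases hx with hx | hx
      · have := hp3 x hx
        omega
      · subst hx
        omega

lemma walk_btw {M : ℕ} (f : Equiv.Perm (Fin M)) (u v : Fin M) (n : ℕ)
    (h : (f v : ℕ) = f u + n ∨ (f u : ℕ) = f v + n) :
    ∃ w : (pg f).Walk u v, w.length = n ∧ w.IsPath ∧
      ∀ x ∈ w.support, x = u ∨ x = v ∨ Btw (f u) (f v) (f x) := by
  have key : ∀ (x : Fin M) (a b : Fin M), ((f a : ℕ) ≤ f x ∧ (f x : ℕ) ≤ f b) →
      x = a ∨ x = b ∨ Btw (f a) (f b) (f x) := by
    intro x a b hx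
    by_cases h1 : x = a
    · exact Or.inl h1
    by_cases h2 : x = b
    · exact Or.inr (Or.inl h2)
    refine Or.inr (Or.inr (Or.inl ?_))
    have h1' : (f x : ℕ) ≠ f a := fun h => h1 (f.injective (Fin.ext h))
    have h2' : (f x : ℕ) ≠ f b := fun h => h2 (f.injective (Fin.ext h))
    omega
  rcases h with h | h
  · obtain ⟨w, h1, h2, h3⟩ := walk_up f u v n h
    exact ⟨w, h1, h2, fun x hx => key x u v (h3 x hx)⟩
  · obtain ⟨w, h1, h2, h3⟩ := walk_up f v u n h
    refine ⟨w.reverse, by rw [Walk.length_reverse, h1], h2.reverse, ?_⟩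
    intro x hx
    rw [Walk.support_reverse, List.mem_reverse] at hx
    rcases key x v u (h3 x hx) with h | h | h
    · exact Or.inr (Or.inl h)
    · exact Or.inl h
    · exact Or.inr (Or.inr h.comm)

theorem cycle_of_cert {M k : ℕ} (hk : 1 ≤ k) (f g : Equiv.Perm (Fin M))
    (h : Cert k (fun a b => ∃ v : Fin M, (f v : ℕ) = a ∧ (g v : ℕ) = b)) :
    ∃ v : Fin M, ∃ w : (pg f ⊔ pg g).Walk v v, w.IsCycle ∧ w.length = 2 * k + 1 := by
  obtain ⟨a, b, a', b', D₁, D₂, ⟨u, hu1, hu2⟩, ⟨v, hv1, hv2⟩, h3, h4, h5, h6, h7, h8⟩ := h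
  subst hu1 hu2 hv1 hv2
  obtain ⟨p, hp1, hp2, hp3⟩ := walk_btw f u v D₁ h6
  obtain ⟨q, hq1, hq2, hq3⟩ := walk_btw g v u D₂ h7.symm
  have hle1 : pg f ≤ pg f ⊔ pg g := le_sup_left
  have hle2 : pg g ≤ pg f ⊔ pg g := le_sup_right
  have hP : (p.mapLe hle1).IsPath := (Walk.isPath_mapLe hle1).2 hp2
  have hQ : (q.mapLe hle2).IsPath := (Walk.isPath_mapLe hle2).2 hq2
  refine ⟨u, (p.mapLe hle1).append (q.mapLe hle2), ?_, ?_⟩
  · apply hP.isCycle_append hQ
    · intro x hx1 hx2
      have hsP : (p.mapLe hle1).support = p.support := by simp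
      have hsQ : (q.mapLe hle2).support = q.support := by simp
      rw [hsP] at hx1
      rw [hsQ] at hx2
      have hxu : x ≠ u := by
        rintro rfl
        have := hp2.support_nodup
        rw [← Walk.cons_tail_support] at this
        exact (List.nodup_cons.1 this).1 hx1
      have hxv : x ≠ v := by
        rintro rfl
        have := hq2.support_nodup
        rw [← Walk.cons_tail_support] at this
        exact (List.nodup_cons.1 this).1 hx2
      have h1 := hp3 x (List.mem_of_mem_tail hx1)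
      have h2 := hq3 x (List.mem_of_mem_tail hx2)
      rcases h1 with h1 | h1 | h1
      · exact hxu h1
      · exact hxv h1
      rcases h2 with h2 | h2 | h2
      · exact hxv h2
      · exact hxu h2
      exact h8 _ _ ⟨x, rfl, rfl⟩ h1 h2.comm
    · have e1 : (p.mapLe hle1).length = D₁ := by simp [hp1]
      have e2 : (q.mapLe hle2).length = D₂ := by simp [hq1]
      have := hk
      omega
  · rw [Walk.length_append]
    have e1 : (p.mapLe hle1).length = D₁ := by simp [hp1]
    have e2 : (q.mapLe hle2).length = D₂ := by simp [hq1]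
    omega

lemma pg_no_odd {M k : ℕ} (f : Equiv.Perm (Fin M)) (G : SimpleGraph (Fin M)) (hG : G = pg f)
    (v : Fin M) (w : G.Walk v v) (hw : w.length = 2 * k + 1) : False := by
  subst hG
  have key : ∀ (a b : Fin M) (w : (pg f).Walk a b),
      (w.length + (f a : ℕ) + (f b : ℕ)) % 2 = 0 := by
    intro a b w
    induction w with
    | nil => simp only [Walk.length_nil]; omega
    | cons h p ih =>
      rw [pg_adj] at h
      rw [Walk.length_cons]
      omega
  have := key v v w
  omega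

theorem family_of_perms {M k : ℕ} (hk : 1 ≤ k) (X : Type) [Fintype X]
    (f : X → Equiv.Perm (Fin M))
    (h : ∀ x y, x ≠ y → Cert k (fun a b => ∃ v : Fin M, (f x v : ℕ) = a ∧ (f y v : ℕ) = b)) :
    ∃ F : Finset (SimpleGraph (Fin M)), F.card = Fintype.card X ∧
      (∀ P ∈ F, Nonempty (pathGraph M ≃g P)) ∧
      (F : Set (SimpleGraph (Fin M))).Pairwise
        (fun P Q => ∃ v : Fin M, ∃ w : (P ⊔ Q).Walk v v, w.IsCycle ∧ w.length = 2 * k + 1) := by
  classical
  have hinj : Function.Injective (fun x => pg (f x)) := by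
    intro x y hxy
    by_contra hne
    obtain ⟨v, w, hw1, hw2⟩ := cycle_of_cert hk _ _ (h x y hne)
    have e : pg (f x) ⊔ pg (f y) = pg (f x) := by
      have : pg (f x) = pg (f y) := hxy
      rw [← this, sup_idem]
    exact pg_no_odd (f x) _ e v w hw2
  refine ⟨Finset.univ.image (fun x => pg (f x)), ?_, ?_, ?_⟩
  · rw [Finset.card_image_of_injective _ hinj, Finset.card_univ]
  · intro P hP
    rw [Finset.mem_image] at hP
    obtain ⟨x, -, rfl⟩ := hP
    exact pg_iso _
  · intro P hP Q hQ hne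
    simp only [Finset.coe_image, Finset.coe_univ, Set.image_univ, Set.mem_range] at hP hQ
    obtain ⟨x, rfl⟩ := hP
    obtain ⟨y, rfl⟩ := hQ
    have hxy : x ≠ y := by
      rintro rfl
      exact hne rfl
    exact cycle_of_cert hk _ _ (h x y hxy)

end Pool.Agent.Lib_helper23.OddCyc
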