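import Pool.Agent.Lib_helper23.OddCyc.StepTwo

set_option autoImplicit false

namespace Pool.Agent.Lib_helper23.OddCyc

open SimpleGraph

/-- number of classes used per level -/
def qq (K : ℕ) : ℕ := 4 * (K + 2)

/-- number of codewords after `r` levels -/
def BB (K : ℕ) : ℕ → ℕ → ℕ
  | 0, _ => 1
  | r + 1, H => (Nat.centralBinom H) ^ (qq K * qq K ^ r) * 2 ^ (qq K ^ r * (qq K * H)) *
      BB K r ((K + 2) * H)

/-- number of vertices after `r` levels -/
def MM (K : ℕ) : ℕ → ℕ → ℕ → ℕ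
  | 0, H, m => 2 * (2 * H * 2 * m)
  | r + 1, H, m => MM K r ((K + 2) * H) (2 * m) + qq K ^ r * RR K (qq K) H m

theorem levels (K r : ℕ) : ∀ (H m : ℕ), 1 ≤ m → ∃ (C : Type) (_ : Fintype C),
    Fintype.card C = qq K ^ r ∧
    Nonempty (Stage (K + 1) C (Fin (2 * H) × Fin 2) m (BB K r H) (MM K r H m)) := by
  induction r with
  | zero =>
    intro H m _
    refine ⟨Unit, inferInstance, by simp, ⟨?_⟩⟩
    have S := Stage.base (K + 1) (Fin (2 * H) × Fin 2) m
    rw [Fintype.card_prod, Fintype.card_fin, Fintype.card_fin] at S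
    exact S
  | succ r ih =>
    intro H m hm
    obtain ⟨C, instC, hC, ⟨S⟩⟩ := ih ((K + 2) * H) (2 * m) (by omega)
    have e : Fin (qq K) × Fin H ≃ Fin (2 * ((K + 2) * H)) × Fin 2 := by
      apply Fintype.equivOfCardEq
      rw [Fintype.card_prod, Fintype.card_prod, Fintype.card_fin, Fintype.card_fin,
        Fintype.card_fin, Fintype.card_fin, qq]
      ring
    have S' := S.reindex e
    obtain ⟨T⟩ := step (H := H) hm (by unfold qq; omega) S'
    refine ⟨Fin (qq K) × C, inferInstance, ?_, ⟨?_⟩⟩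
    · rw [Fintype.card_prod, Fintype.card_fin, hC, pow_succ, mul_comm]
    · rw [hC] at T
      exact T

theorem MM_bound (K r : ℕ) : ∀ m : ℕ, ∃ b : ℕ, ∀ H : ℕ,
    2 ^ r * MM K r H m ≤ (2 ^ r + 1) * (m * (qq K ^ r * (4 * H))) + b := by
  induction r with
  | zero =>
    intro m
    refine ⟨0, fun H => ?_⟩
    simp only [MM, pow_zero, one_mul]
    apply le_of_eq
    ring
  | succ r ih =>
    intro m
    obtain ⟨b, hb⟩ := ih (2 * m)
    refine ⟨2 * b + 2 ^ (r + 1) * (qq K ^ r * (2 * (m + K))), fun H => ?_⟩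
    have h := hb ((K + 2) * H)
    simp only [MM, RR]
    have hq : qq K = 4 * (K + 2) := rfl
    calc 2 ^ (r + 1) * (MM K r ((K + 2) * H) (2 * m) +
          qq K ^ r * (2 * (m * (qq K * H) + m + K)))
        = 2 * (2 ^ r * MM K r ((K + 2) * H) (2 * m)) +
          2 ^ (r + 1) * (qq K ^ r * (2 * (m * (qq K * H) + m + K))) := by ring
      _ ≤ 2 * ((2 ^ r + 1) * (2 * m * (qq K ^ r * (4 * ((K + 2) * H)))) + b) +
          2 ^ (r + 1) * (qq K ^ r * (2 * (m * (qq K * H) + m + K))) := by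
          gcongr
      _ = (2 ^ (r + 1) + 1) * (m * (qq K ^ (r + 1) * (4 * H))) +
          (2 * b + 2 ^ (r + 1) * (qq K ^ r * (2 * (m + K)))) := by
          rw [pow_succ (qq K) r]
          generalize qq K ^ r = Q
          rw [hq]
          ring

theorem BB_bound (K r : ℕ) : ∀ H : ℕ, 1 ≤ H →
    2 ^ (qq K ^ r * (4 * H)) ≤ BB K r H * (2 * ((K + 2) ^ r * H)) ^ (r * qq K ^ r) *
      2 ^ ((K + 2) ^ r * (4 * H)) := by
  induction r with
  | zero =>
    intro H _
    simp [BB]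
  | succ r ih =>
    intro H hH
    have hK : 1 ≤ (K + 2) := by omega
    have h := ih ((K + 2) * H) (Nat.mul_pos hK hH)
    have hq : qq K = 4 * (K + 2) := rfl
    have hcb : 4 ^ H ≤ 2 * H * Nat.centralBinom H := Nat.four_pow_le_two_mul_self_mul_centralBinom H hH
    simp only [BB]
    have e1 : qq K ^ (r + 1) * (4 * H) = qq K ^ r * (4 * ((K + 2) * H)) +
        (qq K ^ r * (qq K * H) + 2 * (H * (qq K * qq K ^ r))) := by
      rw [pow_succ (qq K) r]
      generalize qq K ^ r = Q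
      rw [hq]
      ring
    rw [e1, pow_add, pow_add]
    have e2 : 2 ^ (2 * (H * (qq K * qq K ^ r))) ≤
        (2 * ((K + 2) ^ (r + 1) * H)) ^ (qq K * qq K ^ r) *
          Nat.centralBinom H ^ (qq K * qq K ^ r) := by
      rw [pow_mul, show 2 ^ 2 = 4 by norm_num, pow_mul, ← mul_pow]
      apply Nat.pow_le_pow_left
      refine le_trans hcb ?_
      apply Nat.mul_le_mul_right
      apply Nat.mul_le_mul_left
      exact Nat.le_mul_of_pos_left H (Nat.pow_pos hK)
    have e3 : (2 * ((K + 2) ^ r * ((K + 2) * H))) ^ (r * qq K ^ r) ≤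
        (2 * ((K + 2) ^ (r + 1) * H)) ^ (r * qq K ^ (r + 1)) := by
      have : (K + 2) ^ r * ((K + 2) * H) = (K + 2) ^ (r + 1) * H := by ring
      rw [this]
      apply Nat.pow_le_pow_right
      · apply Nat.mul_pos (by norm_num) (Nat.mul_pos (Nat.pow_pos hK) hH)
      · apply Nat.mul_le_mul_left
        apply Nat.pow_le_pow_right
        · rw [hq]; omega
        · omega
    calc 2 ^ (qq K ^ r * (4 * ((K + 2) * H))) *
          (2 ^ (qq K ^ r * (qq K * H)) * 2 ^ (2 * (H * (qq K * qq K ^ r))))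
        ≤ (BB K r ((K + 2) * H) * (2 * ((K + 2) ^ r * ((K + 2) * H))) ^ (r * qq K ^ r) *
            2 ^ ((K + 2) ^ r * (4 * ((K + 2) * H)))) *
          (2 ^ (qq K ^ r * (qq K * H)) * ((2 * ((K + 2) ^ (r + 1) * H)) ^ (qq K * qq K ^ r) *
          Nat.centralBinom H ^ (qq K * qq K ^ r))) := by gcongr
      _ ≤ (BB K r ((K + 2) * H) * (2 * ((K + 2) ^ (r + 1) * H)) ^ (r * qq K ^ (r + 1)) *
            2 ^ ((K + 2) ^ r * (4 * ((K + 2) * H)))) *
          (2 ^ (qq K ^ r * (qq K * H)) * ((2 * ((K + 2) ^ (r + 1) * H)) ^ (qq K * qq K ^ r) *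
          Nat.centralBinom H ^ (qq K * qq K ^ r))) := by gcongr
      _ = Nat.centralBinom H ^ (qq K * qq K ^ r) * 2 ^ (qq K ^ r * (qq K * H)) *
          BB K r ((K + 2) * H) * (2 * ((K + 2) ^ (r + 1) * H)) ^ ((r + 1) * qq K ^ (r + 1)) *
          2 ^ ((K + 2) ^ (r + 1) * (4 * H)) := by
          have e4 : (r + 1) * qq K ^ (r + 1) = r * qq K ^ (r + 1) + qq K * qq K ^ r := by ring
          have e5 : (K + 2) ^ (r + 1) * (4 * H) = (K + 2) ^ r * (4 * ((K + 2) * H)) := by ring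
          rw [e4, e5, pow_add (2 * ((K + 2) ^ (r + 1) * H))]
          generalize (2 * ((K + 2) ^ (r + 1) * H)) ^ (r * qq K ^ (r + 1)) = A1
          generalize (2 * ((K + 2) ^ (r + 1) * H)) ^ (qq K * qq K ^ r) = A2
          generalize 2 ^ ((K + 2) ^ r * (4 * ((K + 2) * H))) = A3
          generalize Nat.centralBinom H ^ (qq K * qq K ^ r) = A4
          ring

end Pool.Agent.Lib_helper23.OddCyc
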