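import Pool.Agent.Lib_helper23.OddCyc.Levels

set_option autoImplicit false

namespace Pool.Agent.Lib_helper23.OddCyc

open SimpleGraph

/-- the family coming from `r` levels, padded to `n` vertices -/
theorem family_levels (K r H n : ℕ) (hn : MM K r H 1 ≤ n) :
    ∃ F : Finset (SimpleGraph (Fin n)), BB K r H ≤ F.card ∧
      (∀ P ∈ F, Nonempty (pathGraph n ≃g P)) ∧
      (F : Set (SimpleGraph (Fin n))).Pairwise
        (fun P Q => ∃ v : Fin n, ∃ w : (P ⊔ Q).Walk v v, w.IsCycle ∧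
          w.length = 2 * (K + 1) + 1) := by
  obtain ⟨C, instC, -, ⟨S⟩⟩ := levels K r H 1 le_rfl
  exact (S.mono le_rfl hn).family (by omega)

lemma log_term (c c' A γ : ℝ) (hγ : 0 < γ) (hc : 0 ≤ c) (hc' : 0 < c') :
    ∀ᶠ x : ℝ in Filter.atTop, A + c * Real.logb 2 (c' * x) ≤ γ * x := by
  have hlog2 : 0 < Real.log 2 := Real.log_pos (by norm_num)
  set δ : ℝ := γ * Real.log 2 / (2 * (c * c' + 1)) with hδ
  have hcc : 0 < c * c' + 1 := by positivity
  have hδ0 : 0 < δ := by positivity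
  have h1 := (Real.isLittleO_log_id_atTop.def hδ0)
  have h2 : Filter.Tendsto (fun x : ℝ => c' * x) Filter.atTop Filter.atTop :=
    Filter.tendsto_id.const_mul_atTop hc'
  have h3 := h2.eventually h1
  filter_upwards [h3, Filter.eventually_ge_atTop (2 * A / γ), Filter.eventually_gt_atTop 0]
    with x hx1 hx2 hx3
  simp only [id, Real.norm_eq_abs] at hx1
  have hcx : 0 < c' * x := by positivity
  rw [abs_of_pos hcx] at hx1
  have h4 : Real.log (c' * x) ≤ δ * (c' * x) := le_trans (le_abs_self _) hx1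
  have h5 : Real.logb 2 (c' * x) ≤ δ * (c' * x) / Real.log 2 := by
    unfold Real.logb
    gcongr
  have h6 : c * Real.logb 2 (c' * x) ≤ c * (δ * (c' * x) / Real.log 2) := by gcongr
  have h7 : c * (δ * (c' * x) / Real.log 2) ≤ γ / 2 * x := by
    rw [hδ]
    have : c * (γ * Real.log 2 / (2 * (c * c' + 1)) * (c' * x) / Real.log 2) =
      (γ / 2 * x) * (c * c' / (c * c' + 1)) := by
      field_simp
    rw [this]
    have h8 : c * c' / (c * c' + 1) ≤ 1 := by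
      rw [div_le_one hcc]; linarith
    have h9 : 0 ≤ γ / 2 * x := by positivity
    calc (γ / 2 * x) * (c * c' / (c * c' + 1)) ≤ (γ / 2 * x) * 1 := by gcongr
      _ = γ / 2 * x := mul_one _
  have h10 : A ≤ γ / 2 * x := by
    rw [div_le_iff₀ hγ] at hx2
    linarith
  linarith

theorem rate_one (K : ℕ) (ε : ℝ) (hε : 0 < ε) (hε1 : ε < 1) : ∃ N : ℕ, ∀ n : ℕ, N ≤ n →
    ∃ F : Finset (SimpleGraph (Fin n)), (2 : ℝ) ^ ((1 - ε) * (n : ℝ)) ≤ (F.card : ℝ) ∧
      (∀ P ∈ F, Nonempty (pathGraph n ≃g P)) ∧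
      (F : Set (SimpleGraph (Fin n))).Pairwise
        (fun P Q => ∃ v : Fin n, ∃ w : (P ⊔ Q).Walk v v, w.IsCycle ∧
          w.length = 2 * (K + 1) + 1) := by
  obtain ⟨r, hr⟩ := exists_pow_lt_of_lt_one hε (show (1 / 2 : ℝ) < 1 by norm_num)
  obtain ⟨b, hb⟩ := MM_bound K r 1
  set q : ℝ := ((qq K ^ r : ℕ) : ℝ) with hq
  set g : ℝ := (((K + 2) ^ r : ℕ) : ℝ) with hg
  set s : ℝ := (1 / 2 : ℝ) ^ r with hs
  have hs0 : 0 < s := by positivity
  have hs1 : s * 2 ^ r = 1 := by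
    rw [hs, ← mul_pow]; norm_num
  have hqg : g = q * s ^ 2 := by
    have h1 : q = 4 ^ r * g := by
      rw [hq, hg]; unfold qq; push_cast; rw [mul_pow]
    have h2 : s ^ 2 * 4 ^ r = 1 := by
      have : (4 : ℝ) ^ r = (2 ^ r) ^ 2 := by rw [← pow_mul, mul_comm, pow_mul]; norm_num
      rw [this, ← mul_pow, hs1]; norm_num
    rw [h1]
    calc g = g * (s ^ 2 * 4 ^ r) := by rw [h2, mul_one]
      _ = _ := by ring
  have hq0 : 1 ≤ q := by
    rw [hq]
    have : 1 ≤ qq K ^ r := Nat.one_le_pow _ _ (by unfold qq; omega)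
    exact_mod_cast this
  have hg0 : 0 < g := by rw [hqg]; positivity
  set α : ℝ := (1 + s) * (4 * q) with hα
  set β : ℝ := 4 * q - 4 * g with hβ
  have hα0 : 0 < α := by positivity
  have hMM : ∀ H : ℕ, (MM K r H 1 : ℝ) ≤ α * H + b := by
    intro H
    have h1 := hb H
    have h2 : (2 : ℝ) ^ r * (MM K r H 1 : ℝ) ≤ (2 ^ r + 1) * (1 * (q * (4 * H))) + b := by
      rw [hq]; exact_mod_cast h1
    have h3 : (MM K r H 1 : ℝ) = s * (2 ^ r * (MM K r H 1 : ℝ)) := by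
      rw [← mul_assoc, hs1, one_mul]
    have hb0 : (0 : ℝ) ≤ b := Nat.cast_nonneg b
    have hs2 : s ≤ 1 := by
      rw [hs]; exact pow_le_one₀ (by norm_num) (by norm_num)
    rw [h3]
    calc s * (2 ^ r * (MM K r H 1 : ℝ)) ≤ s * ((2 ^ r + 1) * (1 * (q * (4 * H))) + b) := by gcongr
      _ = (s * 2 ^ r + s) * (4 * q) * H + s * b := by ring
      _ ≤ α * H + b := by
        rw [hs1, hα]
        have : s * b ≤ 1 * b := by gcongr
        linarith
  have hBB : ∀ H : ℕ, 1 ≤ H → (2 : ℝ) ^ (β * H - (r * q) * Real.logb 2 ((2 * g) * H)) ≤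
      (BB K r H : ℝ) := by
    intro H hH
    have hH' : (1 : ℝ) ≤ H := by exact_mod_cast hH
    have h1 := BB_bound K r H hH
    have h2 : (2 : ℝ) ^ (q * (4 * H)) ≤ (BB K r H : ℝ) * ((2 * g) * H) ^ ((r : ℝ) * q) *
        2 ^ (g * (4 * H)) := by
      have h3 : ((2 ^ (qq K ^ r * (4 * H)) : ℕ) : ℝ) ≤ ((BB K r H * (2 * ((K + 2) ^ r * H)) ^
        (r * qq K ^ r) * 2 ^ ((K + 2) ^ r * (4 * H)) : ℕ) : ℝ) := by exact_mod_cast h1
      have h4 : ((2 ^ (qq K ^ r * (4 * H)) : ℕ) : ℝ) = (2 : ℝ) ^ (q * (4 * H)) := by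
        rw [hq]
        rw [show (((qq K ^ r : ℕ) : ℝ) * (4 * (H : ℝ))) = ((qq K ^ r * (4 * H) : ℕ) : ℝ) by
          push_cast; ring, Real.rpow_natCast]
        push_cast
        rfl
      have h5 : ((BB K r H * (2 * ((K + 2) ^ r * H)) ^
        (r * qq K ^ r) * 2 ^ ((K + 2) ^ r * (4 * H)) : ℕ) : ℝ) =
          (BB K r H : ℝ) * ((2 * g) * H) ^ ((r : ℝ) * q) * 2 ^ (g * (4 * H)) := by
        rw [hq, hg]
        rw [show (((r : ℝ)) * ((qq K ^ r : ℕ) : ℝ)) = ((r * qq K ^ r : ℕ) : ℝ) by push_cast; ring,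
          show ((((K + 2) ^ r : ℕ) : ℝ) * (4 * (H : ℝ))) = (((K + 2) ^ r * (4 * H) : ℕ) : ℝ) by
          push_cast; ring, Real.rpow_natCast, Real.rpow_natCast]
        push_cast
        ring
      rw [h4, h5] at h3
      exact h3
    have hpos : (0 : ℝ) < (2 * g) * H := by positivity
    have e1 : ((2 * g) * H : ℝ) ^ ((r : ℝ) * q) = 2 ^ ((r * q) * Real.logb 2 ((2 * g) * H)) := by
      rw [mul_comm ((r : ℝ) * q) (Real.logb 2 _), Real.rpow_mul (by norm_num : (0 : ℝ) ≤ 2),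
        Real.rpow_logb (by norm_num) (by norm_num) hpos]
    rw [e1] at h2
    have e2 : (2 : ℝ) ^ (β * H - (r * q) * Real.logb 2 ((2 * g) * H)) =
        2 ^ (q * (4 * H)) / (2 ^ ((r * q) * Real.logb 2 ((2 * g) * H)) * 2 ^ (g * (4 * H))) := by
      rw [← Real.rpow_add (by norm_num), ← Real.rpow_sub (by norm_num)]
      congr 1
      rw [hβ]; ring
    rw [e2, div_le_iff₀ (by positivity), ← mul_assoc (BB K r H : ℝ)]
    exact h2
  have hγ : 0 < β - (1 - ε) * α := by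
    rw [hβ, hα, hqg]
    have h1 : (4 * q - 4 * (q * s ^ 2)) - (1 - ε) * ((1 + s) * (4 * q)) =
      4 * q * (1 + s) * (ε - s) := by ring
    rw [h1]
    have : 0 < ε - s := by linarith
    positivity
  obtain ⟨x₀, hx₀⟩ := Filter.eventually_atTop.1
    (log_term (r * q) (2 * g) ((1 - ε) * (α + b)) _ hγ (by positivity) (by positivity))
  set H₀ : ℕ := max 1 ⌈x₀⌉₊ with hH₀
  refine ⟨⌈α * H₀ + b⌉₊, fun n hn => ?_⟩
  have hn' : α * H₀ + b ≤ n := Nat.ceil_le.1 hn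
  set H : ℕ := ⌊((n : ℝ) - b) / α⌋₊ with hH
  have hHge : H₀ ≤ H := by
    rw [hH]
    apply Nat.le_floor
    rw [le_div_iff₀ hα0]
    linarith
  have h0 : 0 ≤ ((n : ℝ) - b) / α := by
    apply div_nonneg _ hα0.le
    have : 0 ≤ α * H₀ := by positivity
    linarith
  have hH1 : (H : ℝ) ≤ ((n : ℝ) - b) / α := Nat.floor_le h0
  have hH2 : ((n : ℝ) - b) / α < H + 1 := Nat.lt_floor_add_one _
  rw [le_div_iff₀ hα0] at hH1
  rw [div_lt_iff₀ hα0] at hH2
  have hMn : MM K r H 1 ≤ n := by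
    have : (MM K r H 1 : ℝ) ≤ n := by
      have := hMM H
      linarith
    exact_mod_cast this
  obtain ⟨F, hF1, hF2, hF3⟩ := family_levels K r H n hMn
  refine ⟨F, ?_, hF2, hF3⟩
  have hHx : x₀ ≤ (H : ℝ) := by
    have h1 : x₀ ≤ (⌈x₀⌉₊ : ℝ) := Nat.le_ceil _
    have h2 : ((⌈x₀⌉₊ : ℕ) : ℝ) ≤ (H : ℝ) := by
      exact_mod_cast le_trans (le_max_right _ _) hHge
    linarith
  have h3 := hx₀ H hHx
  have hH1' : 1 ≤ H := le_trans (le_max_left _ _) hHge
  calc (2 : ℝ) ^ ((1 - ε) * (n : ℝ)) ≤ 2 ^ (β * H - (r * q) * Real.logb 2 ((2 * g) * H)) := by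
        apply Real.rpow_le_rpow_of_exponent_le (by norm_num)
        have h4 : (1 - ε) * n ≤ (1 - ε) * ((H + 1) * α + b) := by
          apply mul_le_mul_of_nonneg_left _ (by linarith)
          linarith
        have h5 : (1 - ε) * ((H + 1) * α + b) = (1 - ε) * α * H + (1 - ε) * (α + b) := by ring
        have h6 : (β - (1 - ε) * α) * H = β * H - (1 - ε) * α * H := by ring
        linarith
    _ ≤ (BB K r H : ℝ) := hBB H hH1'
    _ ≤ (F.card : ℝ) := by exact_mod_cast hF1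

end Pool.Agent.Lib_helper23.OddCyc
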