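import Pool.Agent.Lib_helper23.OddCyc.Cycle

set_option autoImplicit false

namespace Pool.Agent.Lib_helper23.OddCyc

open SimpleGraph

/-- The joint position relation of two codewords: `a`, `b` are the positions of the same vertex
(a letter, or a dummy sitting at a cell that is not used by letters). -/
def VR {L Sl : Type} (M : ℕ) (cell : Sl → ℕ) (σ τ : L ≃ Sl) (a b : ℕ) : Prop :=
  (∃ ℓ : L, cell (σ ℓ) = a ∧ cell (τ ℓ) = b) ∨ (a = b ∧ a < M ∧ ∀ s, cell s ≠ a)

lemma VR.swap {L Sl : Type} {M : ℕ} {cell : Sl → ℕ} {σ τ : L ≃ Sl} (a b : ℕ) :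
    VR M cell σ τ a b ↔ VR M cell τ σ b a := by
  unfold VR
  constructor
  · rintro (⟨l, h1, h2⟩ | ⟨rfl, h2, h3⟩)
    · exact Or.inl ⟨l, h2, h1⟩
    · exact Or.inr ⟨rfl, h2, h3⟩
  · rintro (⟨l, h1, h2⟩ | ⟨rfl, h2, h3⟩)
    · exact Or.inl ⟨l, h2, h1⟩
    · exact Or.inr ⟨rfl, h2, h3⟩

/-- A stage of the recursive construction: words are indexed by `C × I` (class, index), each word
has `m` letters, there are at least `B` codewords, all living on `M` positions. -/
structure Stage (k : ℕ) (C I : Type) (m B M : ℕ) where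
  X : Type
  fX : Fintype X
  Sl : Type
  cell : Sl → ℕ
  cell_inj : Function.Injective cell
  cell_lt : ∀ s, cell s < M
  slot : X → (C × I × Fin m) ≃ Sl
  card_le : B ≤ @Fintype.card X fX
  p1 : ∀ (x : X) (c : C) (i : I) (u v : Fin m), (v : ℕ) = u + 1 → ∃ z : ℕ,
    ((cell (slot x (c, i, u)) = z ∧ cell (slot x (c, i, v)) = z + 2) ∨
     (cell (slot x (c, i, v)) = z ∧ cell (slot x (c, i, u)) = z + 2)) ∧
    ∀ ℓ : C × I × Fin m, cell (slot x ℓ) = z + 1 → ℓ.1 ≠ c
  p2 : ∀ x y : X, x ≠ y → Cert k (VR M cell (slot x) (slot y))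

/-- The base stage: a single codeword, every other cell is a dummy. -/
noncomputable def Stage.base (k : ℕ) (I : Type) [Fintype I] (m : ℕ) :
    Stage k Unit I m 1 (2 * (Fintype.card I * m)) where
  X := Unit
  fX := inferInstance
  Sl := Unit × I × Fin m
  cell := fun s => 2 * ((Fintype.equivFin I s.2.1 : ℕ) * m + s.2.2)
  cell_inj := by
    rintro ⟨⟨⟩, i, u⟩ ⟨⟨⟩, j, v⟩ h
    simp only at h
    have hu := u.2
    have hv := v.2
    have hm : 0 < m := by omega
    have h1 : (Fintype.equivFin I i : ℕ) * m + u = (Fintype.equivFin I j : ℕ) * m + v := by omega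
    have h2 : (Fintype.equivFin I i : ℕ) = Fintype.equivFin I j := by
      have := congrArg (· / m) h1
      beta_reduce at this
      rwa [mul_comm, Nat.mul_add_div hm, Nat.div_eq_of_lt hu, mul_comm, Nat.mul_add_div hm,
        Nat.div_eq_of_lt hv, add_zero, add_zero] at this
    have h3 : i = j := (Fintype.equivFin I).injective (Fin.ext h2)
    subst h3
    have h4 : u = v := Fin.ext (by omega)
    subst h4
    rfl
  cell_lt := by
    rintro ⟨⟨⟩, i, u⟩
    simp only
    have hu := u.2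
    have hi := (Fintype.equivFin I i).2
    have : ((Fintype.equivFin I i : ℕ) + 1) * m ≤ Fintype.card I * m :=
      Nat.mul_le_mul_right m hi
    rw [add_mul, one_mul] at this
    omega
  slot := fun _ => Equiv.refl _
  card_le := by simp
  p1 := by
    rintro - ⟨⟩ i u v huv
    refine ⟨_, Or.inl ⟨rfl, ?_⟩, ?_⟩
    · simp only [Equiv.refl_apply]
      omega
    · rintro ⟨⟨⟩, j, w⟩ h
      simp only [Equiv.refl_apply] at h
      omega
  p2 := by
    rintro ⟨⟩ ⟨⟩ h
    exact absurd rfl h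

/-- Renaming the word indices. -/
def Stage.reindex {k : ℕ} {C I I' : Type} {m B M : ℕ} (S : Stage k C I m B M) (e : I' ≃ I) :
    Stage k C I' m B M where
  X := S.X
  fX := S.fX
  Sl := S.Sl
  cell := S.cell
  cell_inj := S.cell_inj
  cell_lt := S.cell_lt
  slot := fun x => (Equiv.prodCongr (Equiv.refl C) (Equiv.prodCongr e (Equiv.refl (Fin m)))).trans
    (S.slot x)
  card_le := S.card_le
  p1 := by
    intro x c i u v huv
    obtain ⟨z, hz1, hz2⟩ := S.p1 x c (e i) u v huv
    refine ⟨z, hz1, ?_⟩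
    rintro ⟨c', i', u'⟩ h
    exact hz2 (c', e i', u') h
  p2 := by
    intro x y hxy
    have h := S.p2 x y hxy
    have hV : ∀ a b, VR M S.cell
        ((Equiv.prodCongr (Equiv.refl C) (Equiv.prodCongr e (Equiv.refl (Fin m)))).trans (S.slot x))
        ((Equiv.prodCongr (Equiv.refl C) (Equiv.prodCongr e (Equiv.refl (Fin m)))).trans (S.slot y))
        a b ↔ VR M S.cell (S.slot x) (S.slot y) a b := by
      intro a b
      unfold VR
      constructor
      · rintro (⟨ℓ, h1, h2⟩ | h)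
        · exact Or.inl ⟨_, h1, h2⟩
        · exact Or.inr h
      · rintro (⟨ℓ, h1, h2⟩ | h)
        · left
          refine ⟨(Equiv.prodCongr (Equiv.refl C)
            (Equiv.prodCongr e (Equiv.refl (Fin m)))).symm ℓ, ?_, ?_⟩
          · rw [Equiv.trans_apply, Equiv.apply_symm_apply]; exact h1
          · rw [Equiv.trans_apply, Equiv.apply_symm_apply]; exact h2
        · exact Or.inr h
    obtain ⟨a, b, a', b', D₁, D₂, h1, h2, h3, h4, h5, h6, h7, h8⟩ := h
    exact ⟨a, b, a', b', D₁, D₂, (hV _ _).2 h1, (hV _ _).2 h2, h3, h4, h5, h6, h7,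
      fun c d hcd => h8 c d ((hV _ _).1 hcd)⟩

/-- Adding dummies at the end. -/
def Stage.mono {k : ℕ} {C I : Type} {m B M B' M' : ℕ} (S : Stage k C I m B M) (hB : B' ≤ B)
    (hM : M ≤ M') : Stage k C I m B' M' where
  X := S.X
  fX := S.fX
  Sl := S.Sl
  cell := S.cell
  cell_inj := S.cell_inj
  cell_lt := fun s => lt_of_lt_of_le (S.cell_lt s) hM
  slot := S.slot
  card_le := le_trans hB S.card_le
  p1 := S.p1
  p2 := by
    intro x y hxy
    obtain ⟨a, b, a', b', D₁, D₂, h1, h2, h3, h4, h5, h6, h7, h8⟩ := S.p2 x y hxy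
    have hup : ∀ a b, VR M S.cell (S.slot x) (S.slot y) a b →
        VR M' S.cell (S.slot x) (S.slot y) a b := by
      rintro a b (h | ⟨h1, h2, h3⟩)
      · exact Or.inl h
      · exact Or.inr ⟨h1, by omega, h3⟩
    have hlt : ∀ a b, VR M S.cell (S.slot x) (S.slot y) a b → a < M := by
      rintro a b (⟨ℓ, h1, h2⟩ | ⟨h1, h2, h3⟩)
      · rw [← h1]; exact S.cell_lt _
      · exact h2
    refine ⟨a, b, a', b', D₁, D₂, hup _ _ h1, hup _ _ h2, h3, h4, h5, h6, h7, ?_⟩
    intro c d hcd hbt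
    refine h8 c d ?_ hbt
    rcases hcd with h | ⟨e1, e2, e3⟩
    · exact Or.inl h
    · refine Or.inr ⟨e1, ?_, e3⟩
      have ha := hlt _ _ h1
      have ha' := hlt _ _ h2
      unfold Btw at hbt
      omega

/-- From a stage to a family of Hamiltonian paths. -/
theorem Stage.family {k : ℕ} {C I : Type} {m B M : ℕ} (hk : 1 ≤ k) (S : Stage k C I m B M) :
    ∃ F : Finset (SimpleGraph (Fin M)), B ≤ F.card ∧
      (∀ P ∈ F, Nonempty (pathGraph M ≃g P)) ∧
      (F : Set (SimpleGraph (Fin M))).Pairwise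
        (fun P Q => ∃ v : Fin M, ∃ w : (P ⊔ Q).Walk v v, w.IsCycle ∧ w.length = 2 * k + 1) := by
  classical
  let _ := S.fX
  rcases isEmpty_or_nonempty S.X with hE | ⟨⟨x₀⟩⟩
  · refine ⟨∅, ?_, ?_, ?_⟩
    · have := S.card_le
      rw [Fintype.card_eq_zero] at this
      omega
    · simp
    · simp
  let ι : S.Sl ↪ Fin M := ⟨fun s => ⟨S.cell s, S.cell_lt s⟩, by
    intro s t h
    apply S.cell_inj
    exact congrArg Fin.val h⟩
  let f : S.X → Equiv.Perm (Fin M) := fun x =>
    Equiv.Perm.viaEmbedding ((S.slot x₀).symm.trans (S.slot x) : Equiv.Perm S.Sl) ι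
  have hf1 : ∀ x s, f x (ι s) = ι (S.slot x ((S.slot x₀).symm s)) := by
    intro x s
    exact Equiv.Perm.viaEmbedding_apply _ ι s
  have hf2 : ∀ x v, v ∉ Set.range ι → f x v = v := by
    intro x v hv
    exact Equiv.Perm.viaEmbedding_apply_of_notMem _ ι v hv
  obtain ⟨F, hF1, hF2, hF3⟩ := family_of_perms (M := M) (k := k) hk S.X f (by
    intro x y hxy
    obtain ⟨a, b, a', b', D₁, D₂, h1, h2, h3, h4, h5, h6, h7, h8⟩ := S.p2 x y hxy
    have hV : ∀ a b, VR M S.cell (S.slot x) (S.slot y) a b ↔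
        ∃ v : Fin M, (f x v : ℕ) = a ∧ (f y v : ℕ) = b := by
      intro a b
      constructor
      · rintro (⟨ℓ, e1, e2⟩ | ⟨e1, e2, e3⟩)
        · refine ⟨ι (S.slot x₀ ℓ), ?_, ?_⟩
          · rw [hf1, Equiv.symm_apply_apply]; exact e1
          · rw [hf1, Equiv.symm_apply_apply]; exact e2
        · subst e1
          refine ⟨⟨a, e2⟩, ?_, ?_⟩
          · rw [hf2]
            rintro ⟨s, hs⟩
            exact e3 s (congrArg Fin.val hs)
          · rw [hf2]
            rintro ⟨s, hs⟩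
            exact e3 s (congrArg Fin.val hs)
      · rintro ⟨v, e1, e2⟩
        by_cases hv : v ∈ Set.range ι
        · obtain ⟨s, rfl⟩ := hv
          rw [hf1] at e1 e2
          exact Or.inl ⟨_, e1, e2⟩
        · rw [hf2 _ _ hv] at e1 e2
          refine Or.inr ⟨by rw [← e1, ← e2], by rw [← e1]; exact v.2, ?_⟩
          intro s hs
          apply hv
          refine ⟨s, Fin.ext ?_⟩
          rw [← e1] at hs
          exact hs
    exact ⟨a, b, a', b', D₁, D₂, (hV _ _).1 h1, (hV _ _).1 h2, h3, h4, h5, h6, h7,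
      fun c d hcd => h8 c d ((hV _ _).2 hcd)⟩)
  refine ⟨F, ?_, hF2, hF3⟩
  rw [hF1]
  exact S.card_le

end Pool.Agent.Lib_helper23.OddCyc
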