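import Pool.Agent.Lib_helper23.OddCyc.Stage

set_option autoImplicit false

namespace Pool.Agent.Lib_helper23.OddCyc

open SimpleGraph

/-- letters of the next stage -/
abbrev NL (C : Type) (q H m : ℕ) : Type := C × (Fin q × Fin H) × Fin (2 * m)

/-- letters of the current stage -/
abbrev CL (C : Type) (q H m : ℕ) : Type := (Fin q × C) × (Fin (2 * H) × Fin 2) × Fin m

/-- Splitting the pairs of words according to `e`. -/
def Phi {C : Type} {q H m : ℕ} (e : Fin q × C → (Fin (2 * H) ≃ Fin H ⊕ Fin H)) :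
    CL C q H m ≃ NL C q H m ⊕ NL C q H m where
  toFun l := Sum.map (fun r => (l.1.2, (l.1.1, r), finProdFinEquiv (l.2.1.2, l.2.2)))
    (fun r => (l.1.2, (l.1.1, r), finProdFinEquiv (l.2.1.2, l.2.2))) (e l.1 l.2.1.1)
  invFun := Sum.elim
    (fun s => ((s.2.1.1, s.1), ((e (s.2.1.1, s.1)).symm (Sum.inl s.2.1.2),
      (finProdFinEquiv.symm s.2.2).1), (finProdFinEquiv.symm s.2.2).2))
    (fun s => ((s.2.1.1, s.1), ((e (s.2.1.1, s.1)).symm (Sum.inr s.2.1.2),
      (finProdFinEquiv.symm s.2.2).1), (finProdFinEquiv.symm s.2.2).2))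
  left_inv := by
    rintro ⟨⟨c, d⟩, ⟨t, b⟩, u⟩
    simp only
    rcases h : e (c, d) t with r | r
    · simp only [Sum.map_inl, Sum.elim_inl, Equiv.symm_apply_apply]
      rw [← h, Equiv.symm_apply_apply]
    · simp only [Sum.map_inr, Sum.elim_inr, Equiv.symm_apply_apply]
      rw [← h, Equiv.symm_apply_apply]
  right_inv := by
    rintro (⟨d, ⟨c, r⟩, p⟩ | ⟨d, ⟨c, r⟩, p⟩)
    · simp only [Sum.elim_inl, Equiv.apply_symm_apply, Sum.map_inl, Prod.mk.eta]
    · simp only [Sum.elim_inr, Equiv.apply_symm_apply, Sum.map_inr, Prod.mk.eta]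

lemma Phi_inl {C : Type} {q H m : ℕ} (e : Fin q × C → (Fin (2 * H) ≃ Fin H ⊕ Fin H))
    (c : Fin q) (d : C) (t : Fin (2 * H)) (b : Fin 2) (u : Fin m) (r : Fin H)
    (h : e (c, d) t = Sum.inl r) :
    Phi e ((c, d), (t, b), u) = Sum.inl (d, (c, r), finProdFinEquiv (b, u)) := by
  change Sum.map _ _ (e (c, d) t) = _
  rw [h]; rfl

lemma Phi_inr {C : Type} {q H m : ℕ} (e : Fin q × C → (Fin (2 * H) ≃ Fin H ⊕ Fin H))
    (c : Fin q) (d : C) (t : Fin (2 * H)) (b : Fin 2) (u : Fin m) (r : Fin H)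
    (h : e (c, d) t = Sum.inr r) :
    Phi e ((c, d), (t, b), u) = Sum.inr (d, (c, r), finProdFinEquiv (b, u)) := by
  change Sum.map _ _ (e (c, d) t) = _
  rw [h]; rfl

/-- orienting the objects -/
def flp {C : Type} {q H m : ℕ} (o : C × (Fin q × Fin H) → Bool) : NL C q H m ≃ NL C q H m where
  toFun s := (s.1, s.2.1, if o (s.1, s.2.1) then s.2.2 else s.2.2.rev)
  invFun s := (s.1, s.2.1, if o (s.1, s.2.1) then s.2.2 else s.2.2.rev)
  left_inv := by
    rintro ⟨d, w, p⟩
    by_cases h : o (d, w) <;> simp [h]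
  right_inv := by
    rintro ⟨d, w, p⟩
    by_cases h : o (d, w) <;> simp [h]

/-- The offset, inside a region, of the `p`-th letter of the `i`-th object. -/
def off (K m i p : ℕ) : ℕ := if p < m then 2 * (m * i + p) + 1 else 2 * (m * i + p + K)

lemma off_of_lt {K m i p : ℕ} (h : p < m) : off K m i p = 2 * (m * i + p) + 1 := if_pos h

lemma off_of_ge {K m i p : ℕ} (h : m ≤ p) : off K m i p = 2 * (m * i + p + K) :=
  if_neg (by omega)

lemma off_lt {K m i p n : ℕ} (hi : i < n) (hp : p < 2 * m) :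
    off K m i p < 2 * (m * n + m + K) := by
  have h1 : m * (i + 1) ≤ m * n := Nat.mul_le_mul_left m hi
  rw [mul_add, mul_one] at h1
  unfold off
  split_ifs with h <;> omega

lemma mul_lt_mul_step {m i j : ℕ} (h : i < j) : m * i + m ≤ m * j := by
  have h1 : m * (i + 1) ≤ m * j := Nat.mul_le_mul_left m h
  rwa [mul_add, mul_one] at h1

lemma off_inj {K m i p i' p' : ℕ} (hp : p < 2 * m) (hp' : p' < 2 * m)
    (h : off K m i p = off K m i' p') : i = i' ∧ p = p' := by
  have key : i = i' := by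
    rcases lt_trichotomy i i' with hlt | heq | hgt
    · have := mul_lt_mul_step (m := m) hlt
      unfold off at h
      split_ifs at h <;> omega
    · exact heq
    · have := mul_lt_mul_step (m := m) hgt
      unfold off at h
      split_ifs at h <;> omega
  subst key
  refine ⟨rfl, ?_⟩
  unfold off at h
  split_ifs at h <;> omega

lemma off_mid {K m i p i' p' : ℕ} (hp : p + 1 < 2 * m) (hj : p + 1 < m ∨ m ≤ p)
    (hp' : p' < 2 * m) (h : off K m i' p' = off K m i p + 1) :
    (i' < i ∧ i < i' + (K + 3)) ∨ (i < i' ∧ i' < i + (K + 3)) := by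
  have hm : 1 ≤ m := by omega
  have hmK : K ≤ m * K := Nat.le_mul_of_pos_left K hm
  rcases hj with hj | hj
  · left
    rw [off_of_lt (show p < m by omega)] at h
    have hp'm : m ≤ p' := by
      by_contra hlt
      rw [off_of_lt (by omega)] at h
      omega
    rw [off_of_ge hp'm] at h
    constructor
    · by_contra hle
      have : m * i ≤ m * i' := Nat.mul_le_mul_left m (by omega)
      omega
    · by_contra hge
      have : m * (i' + (K + 3)) ≤ m * i := Nat.mul_le_mul_left m (by omega)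
      have e : m * (i' + (K + 3)) = m * i' + m * K + 3 * m := by ring
      omega
  · right
    rw [off_of_ge hj] at h
    have hp'm : p' < m := by
      by_contra hlt
      rw [off_of_ge (by omega)] at h
      omega
    rw [off_of_lt hp'm] at h
    constructor
    · by_contra hle
      have : m * i' ≤ m * i := Nat.mul_le_mul_left m (by omega)
      omega
    · by_contra hge
      have : m * (i + (K + 3)) ≤ m * i' := Nat.mul_le_mul_left m (by omega)
      have e : m * (i + (K + 3)) = m * i + m * K + 3 * m := by ring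
      omega

lemma off_succ {K m i p : ℕ} (hj : p + 1 < m ∨ m ≤ p) :
    off K m i (p + 1) = off K m i p + 2 := by
  unfold off
  split_ifs <;> omega

/-- There are `centralBinom H` ways of splitting `2H` pairs into two halves, pairwise crossing. -/
lemma exists_split (H : ℕ) : ∃ e : {s : Finset (Fin (2 * H)) // s.card = H} →
    (Fin (2 * H) ≃ Fin H ⊕ Fin H), ∀ s t, s ≠ t → ∃ j r r', e s j = Sum.inl r ∧
      e t j = Sum.inr r' := by
  classical
  have h1 : ∀ s : {s : Finset (Fin (2 * H)) // s.card = H},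
      Fintype.card {a // a ∈ s.1} = H := by
    intro s
    rw [Fintype.card_coe]; exact s.2
  have h2 : ∀ s : {s : Finset (Fin (2 * H)) // s.card = H},
      Fintype.card {a // ¬ a ∈ s.1} = H := by
    intro s
    rw [Fintype.card_subtype_compl, h1 s, Fintype.card_fin]
    omega
  refine ⟨fun s => (Equiv.sumCompl (fun a => a ∈ s.1)).symm.trans
    (Equiv.sumCongr (Fintype.equivFinOfCardEq (h1 s)) (Fintype.equivFinOfCardEq (h2 s))), ?_⟩
  intro s t hst
  have : ∃ j, j ∈ s.1 ∧ j ∉ t.1 := by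
    by_contra hcon
    push Not at hcon
    apply hst
    apply Subtype.ext
    exact Finset.eq_of_subset_of_card_le hcon (by rw [s.2, t.2])
  obtain ⟨j, hj1, hj2⟩ := this
  refine ⟨j, Fintype.equivFinOfCardEq (h1 s) ⟨j, hj1⟩, Fintype.equivFinOfCardEq (h2 t) ⟨j, hj2⟩,
    ?_, ?_⟩
  · rw [Equiv.trans_apply, Equiv.sumCompl_symm_apply_of_pos (p := fun a => a ∈ s.1) hj1]
    rfl
  · rw [Equiv.trans_apply, Equiv.sumCompl_symm_apply_of_neg (p := fun a => a ∈ t.1) hj2]
    rfl

section Main

variable {K q H m B' M' : ℕ} {C : Type} [Fintype C]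

/-- size of one region -/
def RR (K q H m : ℕ) : ℕ := 2 * (m * (q * H) + m + K)

/-- cells of the new stage -/
noncomputable def ncell (K : ℕ) {q H m : ℕ} {C : Type} [Fintype C] {Sl : Type} (M' : ℕ)
    (cell : Sl → ℕ) : Sl ⊕ NL C q H m → ℕ :=
  Sum.elim cell (fun s => M' + RR K q H m * (Fintype.equivFin C s.1 : ℕ) +
    off K m ((s.2.1.1 : ℕ) + q * s.2.1.2) s.2.2)

/-- object index bound -/
lemma obj_lt (c : Fin q) (r : Fin H) : (c : ℕ) + q * r < q * H := by
  have h1 : q * ((r : ℕ) + 1) ≤ q * H := Nat.mul_le_mul_left q r.2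
  rw [mul_add, mul_one] at h1
  have := c.2
  omega

lemma obj_inj {c c' : Fin q} {r r' : Fin H} (h : (c : ℕ) + q * r = c' + q * r') :
    c = c' ∧ r = r' := by
  have := finProdFinEquiv.injective (a₁ := (r, c)) (a₂ := (r', c')) (Fin.ext (by
    simpa [finProdFinEquiv] using h))
  rw [Prod.mk.injEq] at this
  exact ⟨this.2, this.1⟩

/-- two objects of the same class have indices differing by a multiple of `q` -/
lemma obj_gap {c : Fin q} {r r' : Fin H} (h : (c : ℕ) + q * r < c + q * r') :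
    (c : ℕ) + q * r + q ≤ c + q * r' := by
  have h1 : q * (r : ℕ) < q * r' := by omega
  have h2 : (r : ℕ) < r' := lt_of_mul_lt_mul_left h1 (Nat.zero_le _)
  have h3 : q * ((r : ℕ) + 1) ≤ q * r' := Nat.mul_le_mul_left q h2
  rw [mul_add, mul_one] at h3
  omega

lemma region_unique {R a b x y : ℕ} (hx : x < R) (hy : y < R) (h : R * a + x = R * b + y) :
    a = b ∧ x = y := by
  have key : a = b := by
    rcases lt_trichotomy a b with hlt | heq | hgt
    · have := mul_lt_mul_step (m := R) hlt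
      omega
    · exact heq
    · have := mul_lt_mul_step (m := R) hgt
      omega
  subst key
  exact ⟨rfl, by omega⟩

lemma off_lt_RR (c : Fin q) (r : Fin H) (p : Fin (2 * m)) :
    off K m ((c : ℕ) + q * r) p < RR K q H m := off_lt (obj_lt c r) p.2

omit [Fintype C] in
lemma Phi_inl_class {e : Fin q × C → (Fin (2 * H) ≃ Fin H ⊕ Fin H)} {l : CL C q H m}
    {l' : NL C q H m} (h : Phi e l = Sum.inl l') : l.1 = (l'.2.1.1, l'.1) := by
  rw [← Equiv.eq_symm_apply] at h
  rw [h]; rfl

omit [Fintype C] in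
lemma Phi_inr_class {e : Fin q × C → (Fin (2 * H) ≃ Fin H ⊕ Fin H)} {l : CL C q H m}
    {l' : NL C q H m} (h : Phi e l = Sum.inr l') : l.1 = (l'.2.1.1, l'.1) := by
  rw [← Equiv.eq_symm_apply] at h
  rw [h]; rfl

/-- slots of the new stage -/
def nslot (S : Stage (K + 1) C (Fin q × Fin H) (2 * m) B' M')
    (e : Fin q × C → (Fin (2 * H) ≃ Fin H ⊕ Fin H)) (o : C × (Fin q × Fin H) → Bool) (x : S.X) :
    CL C q H m ≃ S.Sl ⊕ NL C q H m :=
  (Phi e).trans (Equiv.sumCongr (S.slot x) (flp o))

lemma npos_inl (S : Stage (K + 1) C (Fin q × Fin H) (2 * m) B' M')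
    {e : Fin q × C → (Fin (2 * H) ≃ Fin H ⊕ Fin H)} (o : C × (Fin q × Fin H) → Bool) (x : S.X)
    {l : CL C q H m} {l' : NL C q H m} (h : Phi e l = Sum.inl l') :
    ncell K M' S.cell (nslot S e o x l) = S.cell (S.slot x l') := by
  unfold nslot
  rw [Equiv.trans_apply, h]
  rfl

lemma npos_inr (S : Stage (K + 1) C (Fin q × Fin H) (2 * m) B' M')
    {e : Fin q × C → (Fin (2 * H) ≃ Fin H ⊕ Fin H)} (o : C × (Fin q × Fin H) → Bool) (x : S.X)
    {l : CL C q H m} {l' : NL C q H m} (h : Phi e l = Sum.inr l') :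
    ncell K M' S.cell (nslot S e o x l) =
      M' + RR K q H m * (Fintype.equivFin C l'.1 : ℕ) +
      off K m ((l'.2.1.1 : ℕ) + q * l'.2.1.2) ((flp o l').2.2 : Fin (2 * m)) := by
  unfold nslot
  rw [Equiv.trans_apply, h]
  rfl

omit [Fintype C] in
lemma flp_true {o : C × (Fin q × Fin H) → Bool} {d : C} {w : Fin q × Fin H} {p : Fin (2 * m)}
    (h : o (d, w) = true) : flp o (d, w, p) = (d, w, p) := by
  change (d, w, _) = _
  simp [h]

omit [Fintype C] in
lemma flp_false {o : C × (Fin q × Fin H) → Bool} {d : C} {w : Fin q × Fin H} {p : Fin (2 * m)}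
    (h : o (d, w) = false) : flp o (d, w, p) = (d, w, p.rev) := by
  change (d, w, _) = _
  simp [h]

lemma ncell_inj (S : Stage (K + 1) C (Fin q × Fin H) (2 * m) B' M') :
    Function.Injective (ncell K (q := q) (H := H) (m := m) (C := C) M' S.cell) := by
  rintro (s | ⟨d, ⟨c, r⟩, p⟩) (s' | ⟨d', ⟨c', r'⟩, p'⟩) h
  · exact congrArg Sum.inl (S.cell_inj h)
  · exfalso
    have h1 := S.cell_lt s
    change S.cell s = M' + RR K q H m * (Fintype.equivFin C d' : ℕ) + _ at h
    rw [h, add_assoc] at h1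
    omega
  · exfalso
    have h1 := S.cell_lt s'
    change M' + RR K q H m * (Fintype.equivFin C d : ℕ) + _ = S.cell s' at h
    rw [← h, add_assoc] at h1
    omega
  · change M' + RR K q H m * (Fintype.equivFin C d : ℕ) + off K m ((c : ℕ) + q * r) p =
      M' + RR K q H m * (Fintype.equivFin C d' : ℕ) + off K m ((c' : ℕ) + q * r') p' at h
    rw [add_assoc, add_assoc] at h
    obtain ⟨h1, h2⟩ := region_unique (off_lt_RR c r p) (off_lt_RR c' r' p')
      (Nat.add_left_cancel h)
    obtain ⟨h3, h4⟩ := off_inj p.2 p'.2 h2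
    obtain ⟨rfl, rfl⟩ := obj_inj h3
    have h5 : d = d' := (Fintype.equivFin C).injective (Fin.ext h1)
    subst h5
    have h6 : p = p' := Fin.ext h4
    subst h6
    rfl

lemma ncell_lt (S : Stage (K + 1) C (Fin q × Fin H) (2 * m) B' M') (s : S.Sl ⊕ NL C q H m) :
    ncell K M' S.cell s < M' + Fintype.card C * RR K q H m := by
  rcases s with s | ⟨d, ⟨c, r⟩, p⟩
  · have := S.cell_lt s
    change S.cell s < _
    omega
  · change M' + RR K q H m * (Fintype.equivFin C d : ℕ) + off K m ((c : ℕ) + q * r) p < _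
    have h1 := off_lt_RR (K := K) c r p
    have h2 := (Fintype.equivFin C d).2
    have h3 := mul_lt_mul_step (m := RR K q H m) h2
    rw [mul_comm (Fintype.card C)]
    omega

/-- property P1 for the new stage -/
lemma new_p1 (hq : K + 3 ≤ q) (S : Stage (K + 1) C (Fin q × Fin H) (2 * m) B' M')
    (e : Fin q × C → (Fin (2 * H) ≃ Fin H ⊕ Fin H)) (o : C × (Fin q × Fin H) → Bool) (x : S.X)
    (c : Fin q × C) (i : Fin (2 * H) × Fin 2) (u v : Fin m) (huv : (v : ℕ) = u + 1) :
    ∃ z : ℕ,
    ((ncell K M' S.cell (nslot S e o x (c, i, u)) = z ∧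
      ncell K M' S.cell (nslot S e o x (c, i, v)) = z + 2) ∨
     (ncell K M' S.cell (nslot S e o x (c, i, v)) = z ∧
      ncell K M' S.cell (nslot S e o x (c, i, u)) = z + 2)) ∧
    ∀ l : CL C q H m, ncell K M' S.cell (nslot S e o x l) = z + 1 → l.1 ≠ c := by
  obtain ⟨c, d⟩ := c
  obtain ⟨t, b⟩ := i
  have hval : ((finProdFinEquiv (b, v) : Fin (2 * m)) : ℕ) =
      (finProdFinEquiv (b, u) : Fin (2 * m)) + 1 := by
    simp only [finProdFinEquiv_apply_val]
    omega
  rcases h : e (c, d) t with r | r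
  · have hu := Phi_inl e c d t b u r h
    have hv := Phi_inl e c d t b v r h
    rw [npos_inl S o x hu, npos_inl S o x hv]
    obtain ⟨z, hz1, hz2⟩ := S.p1 x d (c, r) _ _ hval
    refine ⟨z, hz1, ?_⟩
    have hzlt : z + 2 < M' := by
      rcases hz1 with ⟨h1, h2⟩ | ⟨h1, h2⟩
      · rw [← h2]; exact S.cell_lt _
      · rw [← h2]; exact S.cell_lt _
    intro l hl hlc
    rcases hl' : Phi e l with l' | l'
    · rw [npos_inl S o x hl'] at hl
      have h1 := hz2 l' hl
      have h2 := Phi_inl_class hl'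
      rw [hlc, Prod.mk.injEq] at h2
      exact h1 h2.2.symm
    · rw [npos_inr S o x hl', add_assoc] at hl
      omega
  · have hu := Phi_inr e c d t b u r h
    have hv := Phi_inr e c d t b v r h
    rw [npos_inr S o x hu, npos_inr S o x hv]
    set i : ℕ := (c : ℕ) + q * r with hi
    set base : ℕ := M' + RR K q H m * (Fintype.equivFin C d : ℕ) with hbase
    -- the lower of the two letters
    have hb : (b : ℕ) < 2 := b.2
    have hum : (u : ℕ) + 1 < m := by have := v.2; omega
    obtain ⟨p₀, hp1, hp2, hp3⟩ : ∃ p₀ : ℕ, p₀ + 1 < 2 * m ∧ (p₀ + 1 < m ∨ m ≤ p₀) ∧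
        ((((flp o (d, (c, r), finProdFinEquiv (b, u))).2.2 : Fin (2 * m)) : ℕ) = p₀ ∧
         (((flp o (d, (c, r), finProdFinEquiv (b, v))).2.2 : Fin (2 * m)) : ℕ) = p₀ + 1 ∨
         (((flp o (d, (c, r), finProdFinEquiv (b, v))).2.2 : Fin (2 * m)) : ℕ) = p₀ ∧
         (((flp o (d, (c, r), finProdFinEquiv (b, u))).2.2 : Fin (2 * m)) : ℕ) = p₀ + 1) := by
      have hpu : ((finProdFinEquiv (b, u) : Fin (2 * m)) : ℕ) = u + m * b := by
        simp only [finProdFinEquiv_apply_val]
      have hpv : ((finProdFinEquiv (b, v) : Fin (2 * m)) : ℕ) = v + m * b := by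
        simp only [finProdFinEquiv_apply_val]
      have hb' : (b : ℕ) = 0 ∨ (b : ℕ) = 1 := by omega
      rcases ho : o (d, (c, r)) with _ | _
      · rw [flp_false ho, flp_false ho]
        refine ⟨2 * m - 2 - ((finProdFinEquiv (b, u) : Fin (2 * m)) : ℕ), ?_, ?_, Or.inr ?_⟩
        · rcases hb' with hb' | hb' <;> rw [hb'] at hpu hpv <;> omega
        · rcases hb' with hb' | hb' <;> rw [hb'] at hpu hpv <;> omega
        · simp only [Fin.val_rev]
          rcases hb' with hb' | hb' <;> rw [hb'] at hpu hpv <;> omega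
      · rw [flp_true ho, flp_true ho]
        refine ⟨((finProdFinEquiv (b, u) : Fin (2 * m)) : ℕ), ?_, ?_, Or.inl ?_⟩
        · rcases hb' with hb' | hb' <;> rw [hb'] at hpu hpv <;> omega
        · rcases hb' with hb' | hb' <;> rw [hb'] at hpu hpv <;> omega
        · exact ⟨rfl, hval⟩
    have hsucc := off_succ (K := K) (m := m) (i := i) hp2
    refine ⟨base + off K m i p₀, ?_, ?_⟩
    · rcases hp3 with ⟨h1, h2⟩ | ⟨h1, h2⟩
      · left
        rw [h1, h2, hsucc]
        exact ⟨rfl, by omega⟩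
      · right
        rw [h1, h2, hsucc]
        exact ⟨rfl, by omega⟩
    · intro l hl hlc
      have hoff : off K m i p₀ + 2 < RR K q H m := by
        rw [← hsucc]
        exact off_lt (obj_lt c r) hp1
      rcases hl' : Phi e l with l' | l'
      · rw [npos_inl S o x hl'] at hl
        have := S.cell_lt (S.slot x l')
        omega
      · rw [npos_inr S o x hl'] at hl
        have h2 := Phi_inr_class hl'
        rw [hlc, Prod.mk.injEq] at h2
        obtain ⟨d', ⟨c', r'⟩, p'⟩ := l'
        obtain ⟨h2, h3⟩ := h2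
        simp only at h2 h3
        subst h2 h3
        change base + off K m ((c : ℕ) + q * r')
          ((flp o (d, (c, r'), p')).2.2 : Fin (2 * m)) = _ at hl
        have h4 : off K m ((c : ℕ) + q * r') ((flp o (d, (c, r'), p')).2.2 : Fin (2 * m)) =
            off K m i p₀ + 1 := by omega
        have h5 := off_mid hp1 hp2 ((flp o (d, (c, r'), p')).2.2 : Fin (2 * m)).2 h4
        rcases h5 with ⟨h5, h6⟩ | ⟨h5, h6⟩
        · have := obj_gap h5
          omega
        · have := obj_gap h5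
          omega

end Main

end Pool.Agent.Lib_helper23.OddCyc
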