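import Pool.Agent.Lib_helper23.OddCyc.Step

set_option autoImplicit false

namespace Pool.Agent.Lib_helper23.OddCyc

open SimpleGraph

variable {K q H m B' M' : ℕ} {C : Type} [Fintype C]

/-- Certificate when the splittings differ. -/
lemma p2_split (hm : 1 ≤ m) (S : Stage (K + 1) C (Fin q × Fin H) (2 * m) B' M')
    (e₁ e₂ : Fin q × C → (Fin (2 * H) ≃ Fin H ⊕ Fin H)) (o₁ o₂ : C × (Fin q × Fin H) → Bool)
    (x₁ x₂ : S.X) (c : Fin q) (d : C) (t : Fin (2 * H)) (r₁ r₂ : Fin H)
    (h₁ : e₁ (c, d) t = Sum.inl r₁) (h₂ : e₂ (c, d) t = Sum.inr r₂) :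
    Cert (K + 1) (VR (M' + Fintype.card C * RR K q H m) (ncell K M' S.cell)
      (nslot S e₁ o₁ x₁) (nslot S e₂ o₂ x₂)) := by
  set u : Fin m := ⟨m - 1, by omega⟩ with hu
  set v : Fin m := ⟨0, by omega⟩ with hv
  have hu₁ := Phi_inl e₁ c d t 0 u r₁ h₁
  have hv₁ := Phi_inl e₁ c d t 1 v r₁ h₁
  have hu₂ := Phi_inr e₂ c d t 0 u r₂ h₂
  have hv₂ := Phi_inr e₂ c d t 1 v r₂ h₂
  have hpu : ((finProdFinEquiv ((0 : Fin 2), u) : Fin (2 * m)) : ℕ) = m - 1 := by
    simp [hu]
  have hpv : ((finProdFinEquiv ((1 : Fin 2), v) : Fin (2 * m)) : ℕ) = m := by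
    simp [hv]
  obtain ⟨z, hz1, hz2⟩ := S.p1 x₁ d (c, r₁) (finProdFinEquiv ((0 : Fin 2), u))
    (finProdFinEquiv ((1 : Fin 2), v)) (by omega)
  set base : ℕ := M' + RR K q H m * (Fintype.equivFin C d : ℕ) with hbase
  set i : ℕ := (c : ℕ) + q * r₂ with hi
  have hzlt : z + 2 < M' := by
    rcases hz1 with ⟨h1, h2⟩ | ⟨h1, h2⟩
    · rw [← h2]; exact S.cell_lt _
    · rw [← h2]; exact S.cell_lt _
  -- positions in the second codeword
  have hpos : (ncell K M' S.cell (nslot S e₂ o₂ x₂ ((c, d), (t, 0), u)) =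
        base + off K m i (m - 1) ∧
      ncell K M' S.cell (nslot S e₂ o₂ x₂ ((c, d), (t, 1), v)) = base + off K m i m) ∨
      (ncell K M' S.cell (nslot S e₂ o₂ x₂ ((c, d), (t, 1), v)) =
        base + off K m i (m - 1) ∧
      ncell K M' S.cell (nslot S e₂ o₂ x₂ ((c, d), (t, 0), u)) = base + off K m i m) := by
    rw [npos_inr S o₂ x₂ hu₂, npos_inr S o₂ x₂ hv₂]
    rcases ho : o₂ (d, (c, r₂)) with _ | _
    · right
      rw [flp_false ho, flp_false ho]
      simp only [Fin.val_rev]
      rw [hpu, hpv]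
      constructor
      · congr 2
        omega
      · congr 2
        omega
    · left
      rw [flp_true ho, flp_true ho]
      simp only
      rw [hpu, hpv]
      exact ⟨rfl, rfl⟩
  have hoff1 : off K m i (m - 1) = 2 * (m * i + (m - 1)) + 1 := off_of_lt (by omega)
  have hoff2 : off K m i m = 2 * (m * i + m + K) := off_of_ge le_rfl
  have hoff3 : off K m i m < RR K q H m := off_lt (obj_lt c r₂) (by omega)
  refine ⟨ncell K M' S.cell (nslot S e₁ o₁ x₁ ((c, d), (t, 0), u)),
    ncell K M' S.cell (nslot S e₂ o₂ x₂ ((c, d), (t, 0), u)),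
    ncell K M' S.cell (nslot S e₁ o₁ x₁ ((c, d), (t, 1), v)),
    ncell K M' S.cell (nslot S e₂ o₂ x₂ ((c, d), (t, 1), v)), 2, 2 * K + 1,
    Or.inl ⟨_, rfl, rfl⟩, Or.inl ⟨_, rfl, rfl⟩, by omega, by omega, by omega, ?_, ?_, ?_⟩
  · rw [npos_inl S o₁ x₁ hu₁, npos_inl S o₁ x₁ hv₁]
    omega
  · omega
  · intro a b hab hbt₁ hbt₂
    have ha : a = z + 1 := by
      rw [npos_inl S o₁ x₁ hu₁, npos_inl S o₁ x₁ hv₁] at hbt₁
      unfold Btw at hbt₁
      omega
    have hb : base ≤ b ∧ b < base + RR K q H m := by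
      unfold Btw at hbt₂
      omega
    rcases hab with ⟨l, hl1, hl2⟩ | ⟨h1, h2, h3⟩
    · rcases hl' : Phi e₁ l with l' | l'
      · rw [npos_inl S o₁ x₁ hl', ha] at hl1
        have hcl := hz2 l' hl1
        have hcl2 := Phi_inl_class hl'
        rcases hl'' : Phi e₂ l with l'' | l''
        · rw [npos_inl S o₂ x₂ hl''] at hl2
          have := S.cell_lt (S.slot x₂ l'')
          omega
        · rw [npos_inr S o₂ x₂ hl''] at hl2
          have hcl3 := Phi_inr_class hl''
          rw [hcl2, Prod.mk.injEq] at hcl3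
          have hd : l''.1 ≠ d := by
            rw [← hcl3.2]; exact hcl
          have hR := off_lt_RR (K := K) l''.2.1.1 l''.2.1.2 (flp o₂ l'').2.2
          obtain ⟨y, hy1, hy2⟩ : ∃ y, y < RR K q H m ∧ b = base + y := ⟨b - base, by omega, by omega⟩
          have h5 : RR K q H m * (Fintype.equivFin C l''.1 : ℕ) +
              off K m ((l''.2.1.1 : ℕ) + q * l''.2.1.2) ((flp o₂ l'').2.2 : Fin (2 * m)) =
              RR K q H m * (Fintype.equivFin C d : ℕ) + y := by omega
          obtain ⟨h6, -⟩ := region_unique hR hy1 h5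
          exact hd ((Fintype.equivFin C).injective (Fin.ext h6))
      · rw [npos_inr S o₁ x₁ hl', add_assoc] at hl1
        omega
    · omega

/-- Certificate when the splittings agree and an orientation differs. -/
lemma p2_orient (hm : 1 ≤ m) (S : Stage (K + 1) C (Fin q × Fin H) (2 * m) B' M')
    (e : Fin q × C → (Fin (2 * H) ≃ Fin H ⊕ Fin H)) (o₁ o₂ : C × (Fin q × Fin H) → Bool)
    (x₁ x₂ : S.X) (ho : o₁ ≠ o₂) :
    Cert (K + 1) (VR (M' + Fintype.card C * RR K q H m) (ncell K M' S.cell)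
      (nslot S e o₁ x₁) (nslot S e o₂ x₂)) := by
  classical
  -- minimal object at which the orientations differ
  have hex : ∃ n : ℕ, ∃ (d : C) (c : Fin q) (r : Fin H), (c : ℕ) + q * r = n ∧
      o₁ (d, (c, r)) ≠ o₂ (d, (c, r)) := by
    by_contra hcon
    push Not at hcon
    apply ho
    funext ⟨d, ⟨c, r⟩⟩
    exact hcon _ d c r rfl
  obtain ⟨d, c, r, hn, hne⟩ := Nat.find_spec hex
  have hmin : ∀ (c' : Fin q) (r' : Fin H), (c' : ℕ) + q * r' < c + q * r →
      o₁ (d, (c', r')) = o₂ (d, (c', r')) := by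
    intro c' r' hlt
    by_contra hcon
    have := Nat.find_min' hex ⟨d, c', r', rfl, hcon⟩
    omega
  clear hn
  clear hex
  set base : ℕ := M' + RR K q H m * (Fintype.equivFin C d : ℕ) with hbase
  set i : ℕ := (c : ℕ) + q * r with hi
  have hilt : i < q * H := obj_lt c r
  set u : Fin m := ⟨m - 1, by omega⟩ with hu
  set t : Fin (2 * H) := (e (c, d)).symm (Sum.inr r) with ht
  have het : e (c, d) t = Sum.inr r := by rw [ht, Equiv.apply_symm_apply]
  have hu' := Phi_inr e c d t 0 u r het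
  have hpu : ((finProdFinEquiv ((0 : Fin 2), u) : Fin (2 * m)) : ℕ) = m - 1 := by
    simp [hu]
  have hoff1 : off K m i (m - 1) = 2 * (m * i + (m - 1)) + 1 := off_of_lt (by omega)
  have hoff2 : off K m i m = 2 * (m * i + m + K) := off_of_ge le_rfl
  have hoff3 : off K m i m < RR K q H m := off_lt (obj_lt c r) (by omega)
  -- positions of the chosen letter
  have hpos : ∀ (o : C × (Fin q × Fin H) → Bool) (x : S.X),
      ncell K M' S.cell (nslot S e o x ((c, d), (t, 0), u)) =
        base + off K m i (if o (d, (c, r)) then m - 1 else m) := by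
    intro o x
    rw [npos_inr S o x hu']
    rcases ho : o (d, (c, r)) with _ | _
    · rw [flp_false ho]
      simp only [Fin.val_rev]
      rw [hpu, if_neg (by simp)]
      congr 2
      omega
    · rw [flp_true ho, if_pos rfl]
      simp only
      rw [hpu]
  -- the reference vertex
  set ref : ℕ := base + 2 * (m * i + (m - 1)) with href
  have hVref : VR (M' + Fintype.card C * RR K q H m) (ncell K M' S.cell)
      (nslot S e o₁ x₁) (nslot S e o₂ x₂) ref ref := by
    rcases Nat.lt_or_ge (m * i + (m - 1)) (m + K) with hlt | hge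
    · -- a dummy
      right
      refine ⟨rfl, ?_, ?_⟩
      · have h2 := (Fintype.equivFin C d).2
        have h3 := mul_lt_mul_step (m := RR K q H m) h2
        rw [mul_comm (Fintype.card C)]
        omega
      · rintro (s | ⟨d', ⟨c', r'⟩, p'⟩) hs
        · change S.cell s = _ at hs
          have := S.cell_lt s
          omega
        · change M' + RR K q H m * (Fintype.equivFin C d' : ℕ) + off K m ((c' : ℕ) + q * r') p' =
            _ at hs
          have h5 : RR K q H m * (Fintype.equivFin C d' : ℕ) + off K m ((c' : ℕ) + q * r') p' =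
            RR K q H m * (Fintype.equivFin C d : ℕ) + 2 * (m * i + (m - 1)) := by omega
          obtain ⟨-, h6⟩ := region_unique (off_lt_RR c' r' p') (by omega) h5
          unfold off at h6
          split_ifs at h6 <;> omega
    · -- a letter
      left
      set n' : ℕ := m * i + (m - 1) - K with hn'
      have hn'm : m ≤ n' := by omega
      have hdiv := Nat.div_add_mod n' m
      have hmod := Nat.mod_lt n' hm
      have hdiv1 : 1 ≤ n' / m := (Nat.one_le_div_iff (by omega)).2 hn'm
      set i' : ℕ := n' / m - 1 with hi'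
      have hi'1 : m * i' + m = m * (n' / m) := by
        have : n' / m = i' + 1 := by omega
        rw [this]; ring
      have hi'lt : i' < i := by
        by_contra hcon
        have : m * i ≤ m * i' := Nat.mul_le_mul_left m (by omega)
        omega
      have hq0 : 0 < q := lt_of_le_of_lt (Nat.zero_le _) c.2
      have hr' : i' / q < H := by
        rw [Nat.div_lt_iff_lt_mul hq0, mul_comm]
        omega
      set c' : Fin q := ⟨i' % q, Nat.mod_lt _ hq0⟩ with hc'
      set r' : Fin H := ⟨i' / q, hr'⟩ with hr'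
      have hidx : (c' : ℕ) + q * r' = i' := Nat.mod_add_div i' q
      have hoeq := hmin c' r' (by rw [hidx]; exact hi'lt)
      set p' : Fin (2 * m) := ⟨m + n' % m, by omega⟩ with hp'
      have hfl : ∀ (o : C × (Fin q × Fin H) → Bool) (x : S.X), o (d, (c', r')) = o₁ (d, (c', r')) →
          nslot S e o x ((Phi e).symm (Sum.inr ((flp o₁).symm (d, (c', r'), p')))) =
            Sum.inr (d, (c', r'), p') := by
        intro o x hox
        unfold nslot
        rw [Equiv.trans_apply, Equiv.apply_symm_apply, Equiv.sumCongr_apply, Sum.map_inr]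
        congr 1
        rcases hb : o₁ (d, (c', r')) with _ | _
        · have hsymm : (flp o₁).symm (d, (c', r'), p') = (d, (c', r'), p'.rev) := by
            rw [Equiv.symm_apply_eq, flp_false hb, Fin.rev_rev]
          rw [hsymm, flp_false (by rw [hox, hb]), Fin.rev_rev]
        · have hsymm : (flp o₁).symm (d, (c', r'), p') = (d, (c', r'), p') := by
            rw [Equiv.symm_apply_eq, flp_true hb]
          rw [hsymm, flp_true (by rw [hox, hb])]
      have hcell : ncell K M' S.cell (Sum.inr (d, (c', r'), p')) = ref := by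
        change base + off K m ((c' : ℕ) + q * r') (m + n' % m) = ref
        rw [hidx, off_of_ge (by omega)]
        omega
      refine ⟨(Phi e).symm (Sum.inr ((flp o₁).symm (d, (c', r'), p'))), ?_, ?_⟩
      · rw [hfl o₁ x₁ rfl]; exact hcell
      · rw [hfl o₂ x₂ hoeq.symm]; exact hcell
  have hp1 := hpos o₁ x₁
  have hp2 := hpos o₂ x₂
  rcases ho1 : o₁ (d, (c, r)) with _ | _
  · have ho2 : o₂ (d, (c, r)) = true := by
      rcases ho2 : o₂ (d, (c, r)) with _ | _
      · exact absurd (ho1.trans ho2.symm) hne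
      · rfl
    rw [ho1, if_neg (by simp)] at hp1
    rw [ho2, if_pos rfl] at hp2
    refine ⟨ref, ref, ncell K M' S.cell (nslot S e o₁ x₁ ((c, d), (t, 0), u)),
      ncell K M' S.cell (nslot S e o₂ x₂ ((c, d), (t, 0), u)), 2 * K + 2, 1, hVref,
      Or.inl ⟨_, rfl, rfl⟩, by omega, by omega, by omega, ?_, ?_, ?_⟩
    · left; omega
    · left; omega
    · intro a b hab hbt₁ hbt₂
      unfold Btw at hbt₂
      omega
  · have ho2 : o₂ (d, (c, r)) = false := by
      rcases ho2 : o₂ (d, (c, r)) with _ | _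
      · rfl
      · exact absurd (ho1.trans ho2.symm) hne
    rw [ho1, if_pos rfl] at hp1
    rw [ho2, if_neg (by simp)] at hp2
    refine ⟨ref, ref, ncell K M' S.cell (nslot S e o₁ x₁ ((c, d), (t, 0), u)),
      ncell K M' S.cell (nslot S e o₂ x₂ ((c, d), (t, 0), u)), 1, 2 * K + 2, hVref,
      Or.inl ⟨_, rfl, rfl⟩, by omega, by omega, by omega, ?_, ?_, ?_⟩
    · left; omega
    · left; omega
    · intro a b hab hbt₁ hbt₂
      unfold Btw at hbt₁
      omega

/-- Certificate when only the codeword of the next stage differs. -/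
lemma p2_tail (S : Stage (K + 1) C (Fin q × Fin H) (2 * m) B' M')
    (e : Fin q × C → (Fin (2 * H) ≃ Fin H ⊕ Fin H)) (o : C × (Fin q × Fin H) → Bool)
    (x₁ x₂ : S.X) (hx : x₁ ≠ x₂) :
    Cert (K + 1) (VR (M' + Fintype.card C * RR K q H m) (ncell K M' S.cell)
      (nslot S e o x₁) (nslot S e o x₂)) := by
  obtain ⟨a, b, a', b', D₁, D₂, h1, h2, h3, h4, h5, h6, h7, h8⟩ := S.p2 x₁ x₂ hx
  have hup : ∀ a b, VR M' S.cell (S.slot x₁) (S.slot x₂) a b →
      VR (M' + Fintype.card C * RR K q H m) (ncell K M' S.cell)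
      (nslot S e o x₁) (nslot S e o x₂) a b := by
    rintro a b (⟨l, e1, e2⟩ | ⟨e1, e2, e3⟩)
    · left
      refine ⟨(Phi e).symm (Sum.inl l), ?_, ?_⟩
      · rw [npos_inl S o x₁ (Equiv.apply_symm_apply _ _)]; exact e1
      · rw [npos_inl S o x₂ (Equiv.apply_symm_apply _ _)]; exact e2
    · right
      refine ⟨e1, by omega, ?_⟩
      rintro (s | ⟨d', ⟨c', r'⟩, p'⟩) hs
      · exact e3 s hs
      · change M' + RR K q H m * (Fintype.equivFin C d' : ℕ) + off K m ((c' : ℕ) + q * r') p' =
            _ at hs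
        rw [add_assoc] at hs
        omega
  have hlt : ∀ a b, VR M' S.cell (S.slot x₁) (S.slot x₂) a b → a < M' ∧ b < M' := by
    rintro a b (⟨l, e1, e2⟩ | ⟨e1, e2, e3⟩)
    · exact ⟨by rw [← e1]; exact S.cell_lt _, by rw [← e2]; exact S.cell_lt _⟩
    · exact ⟨e2, by omega⟩
  refine ⟨a, b, a', b', D₁, D₂, hup _ _ h1, hup _ _ h2, h3, h4, h5, h6, h7, ?_⟩
  intro f g hfg hbt
  refine h8 f g ?_ hbt
  have hf : f < M' := by
    have ha := (hlt _ _ h1).1
    have ha' := (hlt _ _ h2).1
    unfold Btw at hbt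
    omega
  rcases hfg with ⟨l, e1, e2⟩ | ⟨e1, e2, e3⟩
  · rcases hl' : Phi e l with l' | l'
    · rw [npos_inl S o x₁ hl'] at e1
      rw [npos_inl S o x₂ hl'] at e2
      exact Or.inl ⟨l', e1, e2⟩
    · rw [npos_inr S o x₁ hl', add_assoc] at e1
      omega
  · right
    refine ⟨e1, hf, ?_⟩
    intro s hs
    exact e3 (Sum.inl s) hs

theorem step (hm : 1 ≤ m) (hq : K + 3 ≤ q)
    (S : Stage (K + 1) C (Fin q × Fin H) (2 * m) B' M') :
    Nonempty (Stage (K + 1) (Fin q × C) (Fin (2 * H) × Fin 2) m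
      ((Nat.centralBinom H) ^ (q * Fintype.card C) * 2 ^ (Fintype.card C * (q * H)) * B')
      (M' + Fintype.card C * RR K q H m)) := by
  classical
  obtain ⟨sp, hsp⟩ := exists_split H
  let _ := S.fX
  refine ⟨{
    X := (Fin q × C → {s : Finset (Fin (2 * H)) // s.card = H}) ×
      ((C × (Fin q × Fin H) → Bool) × S.X)
    fX := inferInstance
    Sl := S.Sl ⊕ NL C q H m
    cell := ncell K M' S.cell
    cell_inj := ncell_inj S
    cell_lt := ncell_lt S
    slot := fun x => nslot S (fun cd => sp (x.1 cd)) x.2.1 x.2.2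
    card_le := ?_
    p1 := ?_
    p2 := ?_ }⟩
  · rw [Fintype.card_prod, Fintype.card_prod, Fintype.card_fun, Fintype.card_fun,
      Fintype.card_finset_len, Fintype.card_prod, Fintype.card_prod, Fintype.card_prod,
      Fintype.card_fin, Fintype.card_fin, Fintype.card_fin, Fintype.card_bool,
      Nat.centralBinom_eq_two_mul_choose, mul_assoc]
    exact Nat.mul_le_mul_left _ (Nat.mul_le_mul_left _ S.card_le)
  · intro x c i u v huv
    exact new_p1 hq S _ _ _ c i u v huv
  · rintro ⟨s₁, o₁, x₁⟩ ⟨s₂, o₂, x₂⟩ hne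
    by_cases hs : s₁ = s₂
    · subst hs
      by_cases ho : o₁ = o₂
      · subst ho
        have hx : x₁ ≠ x₂ := by
          rintro rfl
          exact hne rfl
        exact p2_tail S _ o₁ x₁ x₂ hx
      · exact p2_orient hm S _ o₁ o₂ x₁ x₂ ho
    · obtain ⟨⟨c, d⟩, hcd⟩ := Function.ne_iff.1 hs
      obtain ⟨t, r₁, r₂, h₁, h₂⟩ := hsp _ _ hcd
      exact p2_split hm S _ _ o₁ o₂ x₁ x₂ c d t r₁ r₂ h₁ h₂

end Pool.Agent.Lib_helper23.OddCyc
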